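import Pool.Agent.N103.OC.Final

/-!
# The Künneth components of `X` and ONE Künneth component of a power of `X`

Let `W` be a Weil cohomology theory with coefficients in a field `K` of characteristic zero and `X` a
smooth proper variety of dimension `d` over a field of any characteristic, such that for all `s ≤ d`
there are cycles on `X` of codimension `s` and `d - s` with non-zero intersection number (for
instance powers of an ample divisor).

**Theorem 1.** Let `n ≥ 4` and `3 d ≤ m ≤ 2 (n - 2) d + 1`, and suppose that `m` is even or that `X` has
cohomology in some odd degree. Then ALL Künneth components `π_0, ..., π_(2d)` of the diagonal of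
`X` are algebraic if and only if the SINGLE Künneth component `π_m` of the diagonal of the power `X^n`
is algebraic. (For instance the middle component of `X^4`, `m = 4 d`.) This is proved for classes of cycles
with rational coefficients, and also for combinations of classes of cycles with coefficients in `K`.

**Theorem 2.** Suppose that all varieties of the class have this property, and that there is a curve
with non-zero `H^1`. The conjecture `C` is true for all varieties (all Künneth components are
algebraic) if and only if for arbitrarily large `n` the MIDDLE component `π_n` of the diagonal is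
algebraic for all varieties `V` of dimension `n`. The same for combinations with coefficients in `K`.

In characteristic zero and over arbitrary fields of characteristic `p` nothing is assumed besides the
axioms of a Weil cohomology theory: neither hard Lefschetz nor the Weil conjectures.

Proof. The partial trace `T ↦ Tr_Z(T (1 ⊗ g))` of an algebraic correspondence on `X × Z` with an
algebraic correspondence `g` on `Z` is algebraic. With `g = b × a` for dual cycles `a`, `b` one
obtains from `π_m(X^n)` the components `π_(m - 2s)(X × X)` for all `s ≤ (n - 2) d`. From one of them,
the partial trace of `π_l(X × X)` with the identity is the operator `∑_i (-1)^(l - i) b_(l - i) π_i` where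
the `b_j` are the Betti numbers of `X`; by the choice of `m` the degrees `l` of the parity of `m` which are
available start at `0` and a triangular system of equations gives all `π_i` with `i ≡ m (mod 2)`
(`b_0 = 1`), and those with `i ≢ m (mod 2)` by using the smallest odd `j` with `b_j ≠ 0`. The last
step for the second theorem replaces `X` by the product of `X` and the curve.

The theorem is assembled from the file `N103/OC/Final` of the starting library, whose theorems
(`OpClass.one_component`, `OpClass.middle`) had not been handed in.
-/

set_option autoImplicit false

universe u v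

namespace Pool.Agent.Results.MP_4ca46c_ag.OneComponentOfPower

open Pool.Agent.H914 Pool.Agent.H914.VarClass Pool.Agent.H914.VarClass.Obj
  Pool.Agent.H914.WeilCohomology Pool.Agent.N103.OC

variable {k : Type u} [Field k] {𝒱 : VarClass k} {ops : CycleOps 𝒱}

/-- Theorem 1: `AllRational` and `AllSpan` for `X` are equivalent to one component of `X ^ n`. -/
def OneComponentSuffices (W : WeilCohomology.{u, v} ops) (X : 𝒱.Obj) (n m : ℕ) : Prop :=
  (AllRational W X ↔ RationalComponent W (pw X n) m) ∧
    (AllSpan W X ↔ SpanComponent W (pw X n) m)

/-- **One Künneth component of a power.** -/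
theorem result {k : Type u} [Field k] {𝒱 : VarClass k} {ops : CycleOps 𝒱}
    (W : WeilCohomology.{u, v} ops) :
    (∀ X : 𝒱.Obj, DualCycles ops X → ∀ n m : ℕ, 4 ≤ n → 3 * X.dim ≤ m →
      m ≤ 2 * (n - 2) * X.dim + 1 → (Even m ∨ HasOdd W X) → OneComponentSuffices W X n m) ∧
    ((∀ X : 𝒱.Obj, DualCycles ops X) → (∃ E : 𝒱.Obj, E.dim = 1 ∧ W.gr E 1 ≠ ⊥) →
      ((∀ X : 𝒱.Obj, AllRational W X) ↔ MiddleRational W) ∧
      ((∀ X : 𝒱.Obj, AllSpan W X) ↔ MiddleSpan W)) := by
  constructor
  · intro X hX n m hn hlow hup hodd
    constructor
    · have h := (rat_class W).one_component (pairs_of_dual hX) hn hlow hup hodd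
      rw [rationalComponent_iff, ← h]
      exact forall_congr' fun i => rationalComponent_iff i
    · have h := (kop_class W).one_component (pairs_of_dual hX) hn hlow hup hodd
      rw [spanComponent_iff, ← h]
      exact forall_congr' fun i => spanComponent_iff i
  · rintro hP ⟨E, hE, hE1⟩
    refine ⟨⟨fun h n₀ => ⟨n₀, le_rfl, fun V _ => h V _⟩, fun h X i => ?_⟩,
      ⟨fun h n₀ => ⟨n₀, le_rfl, fun V _ => h V _⟩, fun h X i => ?_⟩⟩
    · refine (rationalComponent_iff i).2 ((rat_class W).middle (fun X => pairs_of_dual (hP X))
        hE hE1 (fun n₀ => ?_) X i)
      obtain ⟨n, hn, hV⟩ := h n₀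
      exact ⟨n, hn, fun V hVn => (rationalComponent_iff n).1 (hV V hVn)⟩
    · refine (spanComponent_iff i).2 ((kop_class W).middle (fun X => pairs_of_dual (hP X))
        hE hE1 (fun n₀ => ?_) X i)
      obtain ⟨n, hn, hV⟩ := h n₀
      exact ⟨n, hn, fun V hVn => (spanComponent_iff n).1 (hV V hVn)⟩

end Pool.Agent.Results.MP_4ca46c_ag.OneComponentOfPower
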