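import Pool.Agent.TH133.PW.Kun

/-!
# The Künneth projectors one pair of classes at a time

Let `X` be a smooth proper variety of dimension `n`, and `𝒲` a nonempty set of Weil cohomology
theories (with any coefficient fields of characteristic zero) such that for every cycle `z` of
codimension `n` on `X × X` and every `j` the traces of `z` on `H^j(X)` are the same rational number
for all theories in `𝒲` (`SameTracesAll`). One can take the `ℓ`-adic theories for all primes `ℓ`
different from the characteristic and the crystalline theory: this is the theorem of Deligne and of
Katz and Messing over finite fields, and follows for all fields by specialization. In characteristic
zero one can take all classical theories.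

We prove that for every `i` the following are equivalent.

1. There is ONE cycle with rational coefficients on `X × X` which induces the projector onto
   `H^i(X)` for ALL theories in `𝒲`: the `i`-th Künneth component of the diagonal is algebraic for
   all of them.
2. For ONE theory in `𝒲` the classes of degree `i` can be separated from the classes of other degrees
   one pair at a time: for all SINGLE classes `y` in `H^i(X)` and `y'` in `H^j(X)`, `j ≠ i`, some
   combination `φ` of algebraic correspondences of degree zero, with coefficients in the coefficient
   field, which may depend on `y` and `y'`, satisfies `φ(y) = y` and `φ(y') = 0`.
3. For one theory in `𝒲` the algebraic cycles on `X × X` detect the sums of TWO products of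
   homogeneous classes: if `y × w + y' × w'`, with `y`, `w` of degrees `i` and `2n - i` and `y'`,
   `w'` of degrees `j ≠ i` and `2n - j`, is orthogonal to all algebraic cycles of codimension `n` on
   `X × X`, then `∫ y w = 0`.
4. For one theory in `𝒲` each subspace of `H(X)` which is stable under the algebraic correspondences
   of degree zero is stable under the projector onto `H^i(X)`.

No conjecture is assumed: neither `B`, nor `D`, nor that of Hodge type, nor the semisimplicity of the
algebra of correspondences. So the conjecture of Künneth type, for a single component, for all
theories and with rational coefficients, follows from the weakest pointwise form for one of the
theories. The condition 3 is on classes of tensor rank two only, whereas the conjecture is the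
statement that the class of tensor rank `b_i(X)` of the projector is algebraic.

Proof. 2 ⇒ (the projector is a combination of correspondences): arguments in the style of Tominaga's
theorem on modules over rings without unit: correspondences which separate single pairs can be
combined to correspondences which separate finitely many pairs. From coefficients in the field of the
theory to rational ones and to all theories: a rational combination of the cycles which occur is,
on the cohomology for each theory, an operator of which all the traces against correspondences are
known in degree `i` and in the other degrees; a polynomial of it with rational coefficients is the
projector. 2 ⇔ 3 is duality: `tr(z · (y × w)) = ± ∫ z(y) w`. 1 ⇒ 4 ⇒ 2 is easy.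

The theorem is assembled from the file `TH133/PW/Kun` of the starting library, whose theorem had not
been handed in.
-/

set_option autoImplicit false

universe u v

namespace Pool.Agent.Results.MP_a60482_ag.PointwiseProjectors

open Pool.Agent.H914 Pool.Agent.H914.VarClass Pool.Agent.H914.VarClass.Obj
  Pool.Agent.H914.WeilCohomology Pool.Agent.TH133.PW

/-- **One Künneth projector for all theories, from the separation of single classes for one
theory.** -/
theorem result {k : Type u} [Field k] {𝒱 : VarClass k} {ops : CycleOps 𝒱}
    (𝒲 : Set (WeilCohomology.{u, v} ops)) (hne : 𝒲.Nonempty) (X : 𝒱.Obj)
    (h𝒲 : SameTracesAll 𝒲 X) (i : ℕ) :
    List.TFAE [
      OneProjectorForAll 𝒲 X i,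
      SeparatesForOne 𝒲 X i,
      DetectsForOne 𝒲 X i,
      SplitForOne 𝒲 X i] :=
  kunneth_one_tfae hne h𝒲 i

end Pool.Agent.Results.MP_a60482_ag.PointwiseProjectors
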